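import Pool.Agent.ZTO.Stmts

/-!
# ZTO, row KER
-/

set_option autoImplicit false

namespace Pool.Agent.ZTO.H27

theorem mem_Ker {G : Type} [Group G] {k : ℕ} {g : G} :
    g ∈ Ker G k ↔ ∀ f : G →* Equiv.Perm (Fin k), f g = 1 := by
  simp only [Ker, Subgroup.mem_iInf, MonoidHom.mem_ker]

theorem finite_hom (G K : Type) [Group G] [Group.FG G] [Group K] [Finite K] : Finite (G →* K) := by
  obtain ⟨S, hS⟩ := Group.FG.out (G := G)
  refine Finite.of_injective (fun f : G →* K => fun s : S => f s) ?_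
  intro f g h
  refine MonoidHom.eq_of_eqOn_dense hS fun s hs => ?_
  exact congrFun h ⟨s, hs⟩

theorem ker_perm {G : Type} [Group G] {k : ℕ} (α : Type) [Finite α] (f : G →* Equiv.Perm α)
    (hα : Nat.card α ≤ k) (g : G) (hg : g ∈ Ker G k) : f g = 1 := by
  classical
  have := Fintype.ofFinite α
  have h1 : Fintype.card α ≤ Fintype.card (Fin k) := by
    rw [Fintype.card_fin, ← Nat.card_eq_fintype_card]
    exact hα
  obtain ⟨i⟩ := Function.Embedding.nonempty_of_card_le h1
  have h2 := mem_Ker.1 hg ((Equiv.Perm.viaEmbeddingHom i).comp f)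
  refine Equiv.Perm.viaEmbeddingHom_injective i ?_
  rw [map_one]
  exact h2

theorem ker : KerStmt := by
  intro G _ _ k
  refine ⟨⟨fun n hn g => ?_⟩, ?_, fun ψ g hg => ?_, fun α _ f hα g hg => ker_perm α f hα g hg,
    fun l hl g hg => ?_, fun H hH hHk g hg => ?_, fun A B hBA hA hB h0 hk g hg a ha => ?_⟩
  · rw [mem_Ker] at hn ⊢
    intro f
    rw [map_mul, map_mul, hn f, mul_one, ← map_mul, mul_inv_cancel, map_one]
  · have := finite_hom G (Equiv.Perm (Fin k))
    exact Subgroup.finiteIndex_iInf fun f => Subgroup.finiteIndex_ker f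
  · rw [mem_Ker] at hg ⊢
    exact fun f => hg (f.comp ψ)
  · rw [mem_Ker]
    intro f
    refine ker_perm (Fin l) f ?_ g hg
    rw [Nat.card_fin]
    exact hl
  · have : Finite (G ⧸ H) := Nat.finite_of_card_ne_zero hH
    have h1 := ker_perm (G ⧸ H) (MulAction.toPermHom G (G ⧸ H)) hHk g hg
    have h2 : g • ((1 : G) : G ⧸ H) = ((1 : G) : G ⧸ H) := by
      have h3 := congrArg (fun p : Equiv.Perm (G ⧸ H) => p ((1 : G) : G ⧸ H)) h1
      exact h3
    have h4 : ((g : G) : G ⧸ H) = ((1 : G) : G ⧸ H) := by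
      have h5 : g • ((1 : G) : G ⧸ H) = ((g * 1 : G) : G ⧸ H) := rfl
      rw [h5, mul_one] at h2
      exact h2
    have h6 := QuotientGroup.eq.1 h4
    rw [mul_one] at h6
    exact (H.inv_mem_iff).1 h6
  · have hker : B.relIndex A = Nat.card (A.map (QuotientGroup.mk' B)) := by
      rw [← Subgroup.relIndex_ker, QuotientGroup.ker_mk']
    have hfin : Finite (A.map (QuotientGroup.mk' B)) := by
      refine Nat.finite_of_card_ne_zero ?_
      rw [← hker]
      exact h0
    have hnor : (A.map (QuotientGroup.mk' B)).Normal :=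
      hA.map _ (QuotientGroup.mk'_surjective B)
    let f : G →* Equiv.Perm (A.map (QuotientGroup.mk' B)) :=
      (MulAut.toPerm _).comp ((MulAut.conjNormal (H := A.map (QuotientGroup.mk' B))).comp
        (QuotientGroup.mk' B))
    have h1 := ker_perm _ f (hker ▸ hk) g hg
    have h2 : f g ⟨QuotientGroup.mk' B a, Subgroup.mem_map_of_mem _ ha⟩ =
        ⟨QuotientGroup.mk' B a, Subgroup.mem_map_of_mem _ ha⟩ := by
      rw [h1]
      rfl
    have h3 := congrArg (fun x : A.map (QuotientGroup.mk' B) => (x : G ⧸ B)) h2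
    have h4 : QuotientGroup.mk' B g * QuotientGroup.mk' B a * (QuotientGroup.mk' B g)⁻¹ =
        QuotientGroup.mk' B a := h3
    have h5 : QuotientGroup.mk' B (g * a * g⁻¹ * a⁻¹) = 1 := by
      rw [map_mul, map_mul, map_mul, map_inv, map_inv, h4, mul_inv_cancel]
    exact (QuotientGroup.eq_one_iff _).1 h5

end Pool.Agent.ZTO.H27
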